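import Pool.Agent.P.MP_02a1b3_co.As.All

set_option autoImplicit false

namespace Pool.Agent.Results.MP_02a1b3_co.Asymptotic

/-- With `L = q n + r`, `0 ≤ r < n`, this is `(q + 1) ^ r * q ^ (n - r)`. -/
def U (n L : ℕ) : ℕ := (L / n + 1) ^ (L % n) * (L / n) ^ (n - L % n)

/-- The alternating sum over `k ≤ L / n` of `(-1) ^ k * C(n, k) * U(n, L - k n)`. -/
def P (n L : ℕ) : ℤ :=
  ∑ k ∈ Finset.range (L / n + 1), (-1) ^ k * (n.choose k : ℤ) * (U n (L - k * n) : ℤ)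

open Pool.Agent.P.MP_02a1b3_co Pool.Agent.P.MP_02a1b3_co.As in
theorem result (ε : ℝ) (hε : 0 < ε) : ∃ n₀ : ℕ, ∀ n : ℕ, n₀ ≤ n → ∀ m : ℕ, 1 ≤ m →
    m ≤ n.factorial → ∃ h g : ℕ,
      IsLeast {l : ℕ | ∃ w : List (Fin n), w.length = l ∧
        m ≤ {π : Equiv.Perm (Fin n) | (List.ofFn π).Sublist w}.ncard} h ∧
      IsLeast {L : ℕ | (m : ℤ) ≤ P n L} g ∧ h ≤ g ∧ (g : ℝ) ≤ (1 + ε) * h := by
  obtain ⟨n0, h0⟩ := all_main ε hε
  refine ⟨max n0 1, fun n hn m _ hm => ?_⟩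
  have : NeZero n := ⟨by have := le_of_max_le_right hn; omega⟩
  have e : ∀ w : List (Fin n),
      {π : Equiv.Perm (Fin n) | (List.ofFn π).Sublist w}.ncard = N w := by
    intro w
    rw [N, ← Set.ncard_coe_finset]
    simp
  have f : ∀ L, P n L = N (per n L) := fun L => (all_form n L).symm
  have full : N (per n (n * n)) = n.factorial := by
    have a := all_sym n n le_rfl
    rw [N_eq_zero (w := per n ((n - n) * n)) (by simpa [per_length] using NeZero.pos n)] at a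
    simpa using a
  have A : {l : ℕ | ∃ w : List (Fin n), w.length = l ∧
      m ≤ {π : Equiv.Perm (Fin n) | (List.ofFn π).Sublist w}.ncard}.Nonempty :=
    ⟨n * n, per n (n * n), per_length _ _, by rw [e, full]; exact hm⟩
  have B : {L : ℕ | (m : ℤ) ≤ P n L}.Nonempty :=
    ⟨n * n, by rw [Set.mem_ofPred_eq, f, full]; exact_mod_cast hm⟩
  refine ⟨sInf _, sInf _, ⟨Nat.sInf_mem A, fun _ hx => Nat.sInf_le hx⟩,
    ⟨Nat.sInf_mem B, fun _ hx => Nat.sInf_le hx⟩, ?_, ?_⟩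
  · apply Nat.sInf_le
    have b := Nat.sInf_mem B
    rw [Set.mem_ofPred_eq, f] at b
    exact ⟨per n _, per_length _ _, by rw [e]; exact_mod_cast b⟩
  · obtain ⟨w, a1, a2⟩ := Nat.sInf_mem A
    rw [← a1]
    rw [e] at a2
    have a3 := a2.trans (h0 n (le_of_max_le_left hn) w)
    have a4 : sInf {L : ℕ | (m : ℤ) ≤ P n L} ≤ ⌊(1 + ε) * w.length⌋₊ :=
      Nat.sInf_le (by rw [Set.mem_ofPred_eq, f]; exact_mod_cast a3)
    exact (Nat.cast_le.2 a4).trans (Nat.floor_le (by positivity))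

end Pool.Agent.Results.MP_02a1b3_co.Asymptotic
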