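import Pool.Agent.P.MP_02a1b3_co.Main

set_option autoImplicit false

namespace Pool.Agent.Results.MP_02a1b3_co.ExactRange

/-- With `L = q n + r`, `0 ≤ r < n`, this is `(q + 1) ^ r * q ^ (n - r)`. -/
def U (n L : ℕ) : ℕ := (L / n + 1) ^ (L % n) * (L / n) ^ (n - L % n)

theorem result (n L m : ℕ) (hn : 1 ≤ n) (hL : n ≤ L) (h1 : U n (L - 1) < m)
    (h2 : m + n * U n (L - n) ≤ U n L) :
    IsLeast {l : ℕ | ∃ w : List (Fin n), w.length = l ∧
      m ≤ {π : Equiv.Perm (Fin n) | (List.ofFn π).Sublist w}.ncard} L := by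
  have e : ∀ w : List (Fin n), {π : Equiv.Perm (Fin n) | (List.ofFn π).Sublist w}.ncard
      = (Finset.univ.filter fun π : Equiv.Perm (Fin n) => (List.ofFn π).Sublist w).card := by
    intro w
    rw [← Set.ncard_coe_finset]
    simp
  constructor
  · obtain ⟨w, a1, a2⟩ := Pool.Agent.P.MP_02a1b3_co.lower hn L
    refine ⟨w, a1, ?_⟩
    rw [e]
    change U n L ≤ _ + n * U n (L - n) at a2
    omega
  · rintro l ⟨w, a1, a2⟩
    by_contra h
    have := Pool.Agent.P.MP_02a1b3_co.upper hn w (L := L - 1) (by omega)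
    rw [e] at a2
    change _ ≤ U n (L - 1) at this
    omega

end Pool.Agent.Results.MP_02a1b3_co.ExactRange
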