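import Pool.Agent.P.MP_02a1b3_co.Fn.Main

set_option autoImplicit false

namespace Pool.Agent.Results.MP_02a1b3_co.FourN

theorem result (n : ℕ) : ∃ w : List (Fin n),
    (∀ π : Equiv.Perm (Fin n), (List.ofFn π).Sublist w) ∧
      (w.length : ℝ) ≤ (n : ℝ) ^ 2 - 4 * n + 48 * (n : ℝ) ^ (3 / 4 : ℝ) :=
  Pool.Agent.P.MP_02a1b3_co.Fn.final n

end Pool.Agent.Results.MP_02a1b3_co.FourN
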