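import Pool.Agent.P.MP_02a1b3_co.Ft.Main

set_option autoImplicit false

namespace Pool.Agent.Results.MP_02a1b3_co.FourThirds

theorem result (n : ℕ) (w : List (Fin n))
    (hw : ∀ π : Equiv.Perm (Fin n), (List.ofFn π).Sublist w) :
    (n : ℝ) ^ 2 - 21600 * (n : ℝ) ^ (4 / 3 : ℝ) ≤ w.length :=
  Pool.Agent.P.MP_02a1b3_co.Ft.final n w hw

end Pool.Agent.Results.MP_02a1b3_co.FourThirds
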